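import Pool.Agent.R739.RW.FinZ

/-!
# Equidistribution modulo one of `η ξ e ^ n` for numbers `ξ` with random digits

The digits are taken in any real algebraic base `β > 1` without conjugates on the unit circle, for
instance in an integer base or in a Pisot base. The sequence may be shifted, and its terms may be
weighted, by random quantities which depend on the distant digits of `ξ`.
-/

set_option autoImplicit false

namespace Pool.Agent.Results.MP_9056e9_nt.RandomDigits

open Finset Filter Topology MeasureTheory ProbabilityTheory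

/-- algebraic numbers without conjugates on the unit circle -/
def NoUnitConjugates (β : ℝ) : Prop :=
  IsAlgebraic ℚ β ∧ ∀ z : ℂ, Polynomial.aeval z (minpoly ℚ β) = 0 → ‖z‖ ≠ 1

/-- equidistribution modulo one, as in the problem -/
def Equidistributed (u : ℕ → ℝ) : Prop := ∀ a b : ℝ, 0 ≤ a → a < b → b ≤ 1 →
  Tendsto (fun N : ℕ => (((Icc 1 N).filter
    (fun n : ℕ => a ≤ Int.fract (u n) ∧ Int.fract (u n) < b)).card : ℝ) / (N : ℝ)) atTop
    (𝓝 (b - a))

/-- equidistribution of the points `x 1, x 2, …` of `ℝ ^ m` in the torus `(ℝ / ℤ) ^ m`: the averages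
of every continuous function tend to its integral -/
def EquidistributedTorus {m : ℕ} (x : ℕ → Fin m → ℝ) : Prop :=
  ∀ f : C(Fin m → UnitAddCircle, ℂ),
    Tendsto (fun N : ℕ => (∑ n ∈ Icc 1 N, f (fun i => (x n i : UnitAddCircle))) / (N : ℂ)) atTop
      (𝓝 (∫ z, f z))

/-- random digits: independent, uniformly bounded, and either integers, no value being taken with a
probability larger than `1 - c`, or identically distributed with at least two atoms -/
def DigitHypotheses {Ω : Type} [MeasurableSpace Ω] (P : Measure Ω) (D : ℕ → Ω → ℝ) : Prop :=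
  (∀ j, Measurable (D j)) ∧ iIndepFun D P ∧ (∃ M : ℝ, ∀ j ω, |D j ω| ≤ M) ∧
  (((∀ j ω, ∃ d : ℤ, D j ω = d) ∧ ∃ c : ℝ, 0 < c ∧ ∀ j d, P.real {ω | D j ω = d} ≤ 1 - c) ∨
    ((∀ j, IdentDistrib (D j) (D 0) P P) ∧
      ∃ x y : ℝ, x ≠ y ∧ 0 < P.real {ω | D 0 ω = x} ∧ 0 < P.real {ω | D 0 ω = y}))

/-- the σ-algebra generated by the digits `D j` with `j ≥ x` -/
abbrev Far {Ω : Type} (D : ℕ → Ω → ℝ) (x : ℝ) : MeasurableSpace Ω :=
  ⨆ j ∈ {j : ℕ | x ≤ (j : ℝ)}, MeasurableSpace.comap (D j) inferInstance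

/-- Let `β > 1` be an algebraic number without conjugates on the unit circle, let
`ξ = ∑ D j / β ^ (j + 1)` with random digits `D j`, and let `κ > 0`.

1. Let `η` be linearly independent over `ℚ`, and let the random weights `Z n`, `|Z n| ≤ 1`, and the
random shifts `Θ n` depend only on the digits `D j` with `j ≥ κ n`. Then almost surely
`(∑ n ≤ N, Z n (f (η ξ e ^ n + Θ n) - ∫ f)) / N` tends to `0` for all continuous `f` on the torus.

2. Let `η ≠ 0`, and let the random numbers `Θ n` depend only on the digits `D j` with `j ≥ κ n`.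
Then almost surely `η ξ e ^ n + Θ n` is equidistributed modulo one, and even completely
equidistributed. -/
theorem result (β : ℝ) (hβ : 1 < β) (hβ' : NoUnitConjugates β) {Ω : Type} [MeasurableSpace Ω]
    (P : Measure Ω) [IsProbabilityMeasure P] (D : ℕ → Ω → ℝ) (hD : DigitHypotheses P D)
    (κ : ℝ) (hκ : 0 < κ) (ξ : Ω → ℝ) (hξ : ξ = fun ω => ∑' j, D j ω / β ^ (j + 1)) :
    (∀ (m : ℕ) (η : Fin m → ℝ), LinearIndependent ℚ η →
      ∀ (Z : ℕ → Ω → ℂ) (Θ : ℕ → Ω → Fin m → ℝ), (∀ n ω, ‖Z n ω‖ ≤ 1) →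
      (∀ n : ℕ, Measurable[Far D (κ * n)] (Z n)) → (∀ n : ℕ, Measurable[Far D (κ * n)] (Θ n)) →
      ∀ᵐ ω ∂P, ∀ f : C(Fin m → UnitAddCircle, ℂ), Tendsto (fun N : ℕ => (∑ n ∈ Icc 1 N, Z n ω *
        (f (fun i => ((η i * ξ ω * Real.exp n + Θ n ω i : ℝ) : UnitAddCircle)) - ∫ y, f y)) /
        (N : ℂ)) atTop (𝓝 0)) ∧
    (∀ η : ℝ, η ≠ 0 → ∀ Θ : ℕ → Ω → ℝ, (∀ n : ℕ, Measurable[Far D (κ * n)] (Θ n)) →
      ∀ᵐ ω ∂P, Equidistributed (fun n => η * ξ ω * Real.exp n + Θ n ω) ∧
        ∀ m : ℕ, EquidistributedTorus fun n (i : Fin m) =>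
          η * ξ ω * Real.exp ((n + i : ℕ) : ℝ) + Θ (n + i) ω) := by
  rw [hξ]
  exact Pool.Agent.R739.RW.main P β hβ hβ' D hD κ hκ

end Pool.Agent.Results.MP_9056e9_nt.RandomDigits
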