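import Pool.Agent.R430.RP.Concl
import Pool.Agent.R430.RG.Pert
import Pool.Agent.R430.RG.Sum
import Pool.Agent.R430.RG.Mod

/-!
# Random numbers with independent digits in any real base: lacunary sequences, joint
equidistribution of the random multiples of `e ^ n` and `π ^ n`, predictable weights and shifts

The digits are independent and need not be identically distributed; the base is any real number
`b > 1`. The sequence `s n` is any lacunary sequence of real numbers for which `log |s n| / log b` is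
equidistributed modulo one. For `e` and `π` every algebraic base is allowed.
-/

set_option autoImplicit false

namespace Pool.Agent.Results.MP_9056e9_nt.RandomDigitsLacunary

open Finset Filter Topology MeasureTheory ProbabilityTheory

/-- equidistribution modulo one, as in the problem -/
def Equidistributed (u : ℕ → ℝ) : Prop := ∀ a b : ℝ, 0 ≤ a → a < b → b ≤ 1 →
  Tendsto (fun N : ℕ => (((Icc 1 N).filter
    (fun n : ℕ => a ≤ Int.fract (u n) ∧ Int.fract (u n) < b)).card : ℝ) / (N : ℝ)) atTop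
    (𝓝 (b - a))

/-- equidistribution of the points `x 1, x 2, …` of `ℝ ^ m` in the torus `(ℝ / ℤ) ^ m`: the averages
of every continuous function tend to its integral -/
def EquidistributedTorus {m : ℕ} (x : ℕ → Fin m → ℝ) : Prop :=
  ∀ f : C(Fin m → UnitAddCircle, ℂ),
    Tendsto (fun N : ℕ => (∑ n ∈ Icc 1 N, f (fun i => (x n i : UnitAddCircle))) / (N : ℂ)) atTop
      (𝓝 (∫ z, f z))

/-- lacunary sequences of real numbers of any signs -/
def Lacunary (s : ℕ → ℝ) : Prop :=
  ∃ q : ℝ, 1 < q ∧ ∀ᶠ n : ℕ in atTop, 0 < |s n| ∧ q * |s n| ≤ |s (n + 1)|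

/-- the sigma-algebra of the digits `D j` with `j ≤ y` -/
def Before {Ω : Type} (D : ℕ → Ω → ℝ) (y : ℝ) : MeasurableSpace Ω :=
  ⨆ (j : ℕ) (_ : (j : ℝ) ≤ y), MeasurableSpace.comap (D j) inferInstance

/-- three statements on the random numbers `ξ * s n`; the random weights `Z n` and shifts `θ n`
depend only on the digits `D j` with `j ≤ κ log |s n| / log b`, `κ < 1` -/
def SeqOf {Ω : Type} [MeasurableSpace Ω] (P : Measure Ω) (b : ℝ) (D : ℕ → Ω → ℝ) (ξ : Ω → ℝ)
    (s : ℕ → ℝ) : Prop := ∀ κ : ℝ, κ < 1 →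
  (∀ η : ℝ, η ≠ 0 → ∀ Z : ℕ → Ω → ℂ,
    (∀ n, Measurable[Before D (κ * (Real.log |s n| / Real.log b))] (Z n)) →
    (∀ n ω, ‖Z n ω‖ ≤ 1) → ∀ᵐ ω ∂P, Tendsto (fun N : ℕ => (∑ n ∈ Icc 1 N, Z n ω *
      Complex.exp (2 * Real.pi * Complex.I * (η * ξ ω * s n : ℝ))) / (N : ℂ)) atTop (𝓝 0)) ∧
  (∀ η : ℝ, η ≠ 0 → ∀ θ : ℕ → Ω → ℝ,
    (∀ n, Measurable[Before D (κ * (Real.log |s n| / Real.log b))] (θ n)) →
    ∀ᵐ ω ∂P, Equidistributed fun n => η * ξ ω * s n + θ n ω) ∧
  (∀ (m : ℕ) (η : Fin m → ℝ), LinearIndependent ℚ η → ∀ θ : ℕ → Fin m → Ω → ℝ,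
    (∀ n i, Measurable[Before D (κ * (Real.log |s n| / Real.log b))] (θ n i)) →
    ∀ᵐ ω ∂P, EquidistributedTorus fun n i => η i * ξ ω * s n + θ n i ω)

/-- independent bounded digits, each with two atoms of mass at least `c` whose distance is in a
fixed finite set of nonzero numbers -/
structure Digits {Ω : Type} [MeasurableSpace Ω] (P : Measure Ω) (D : ℕ → Ω → ℝ) : Prop where
  meas : ∀ j, Measurable (D j)
  indep : iIndepFun D P
  bdd : ∃ M : ℝ, ∀ j ω, |D j ω| ≤ M
  atoms : ∃ (L : Finset ℝ) (c : ℝ), 0 < c ∧ ∀ j, ∃ (x l : ℝ), l ∈ L ∧ l ≠ 0 ∧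
    c ≤ P.real {ω | D j ω = x} ∧ c ≤ P.real {ω | D j ω = x + l}

/-- the random number with the digits `D j` in base `b` -/
noncomputable def number {Ω : Type} (b : ℝ) (D : ℕ → Ω → ℝ) (ω : Ω) : ℝ :=
  ∑' j, D j ω / b ^ (j + 1)

/-- Let `b > 1` be real and `ξ = ∑ D j / b ^ (j + 1)` with random digits `D j` as above.
(1) lacunary sequences; (2) powers of one number; (3) joint equidistribution for powers of several
numbers; (4) for algebraic `b`, joint complete equidistribution for `e` and `π`. -/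
theorem result (b : ℝ) (hb : 1 < b) (Ω : Type) [MeasurableSpace Ω] (P : Measure Ω)
    [IsProbabilityMeasure P] (D : ℕ → Ω → ℝ) (hD : Digits P D) :
    (∀ s : ℕ → ℝ, Lacunary s → Equidistributed (fun n => Real.log |s n| / Real.log b) →
      SeqOf P b D (number b D) s) ∧
    (∀ t : ℝ, 1 < t → Irrational (Real.log t / Real.log b) →
      SeqOf P b D (number b D) fun n => t ^ n) ∧
    (∀ (r : ℕ) (t : Fin r → ℝ) (κ : ℝ), Function.Injective t →
      (∀ i, 1 < t i ∧ Irrational (Real.log (t i) / Real.log b) ∧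
        κ < Real.log (t i) / Real.log b) →
      ∀ (m : ℕ) (p : Fin m → Fin r) (η : Fin m → ℝ),
        (∀ i, LinearIndependent ℚ fun k : {k // p k = i} => η k) →
        ∀ θ : ℕ → Fin m → Ω → ℝ, (∀ (n : ℕ) k, Measurable[Before D (κ * n)] (θ n k)) →
          ∀ᵐ ω ∂P, EquidistributedTorus fun n k => η k * number b D ω * t (p k) ^ n + θ n k ω) ∧
    (IsAlgebraic ℚ b → (SeqOf P b D (number b D) fun n => Real.exp 1 ^ n) ∧
      (SeqOf P b D (number b D) fun n => Real.pi ^ n) ∧
      ∀ η₁ η₂ κ : ℝ, η₁ ≠ 0 → η₂ ≠ 0 → κ < 1 / Real.log b → ∀ θ : ℕ → Fin 2 × ℕ → Ω → ℝ,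
        (∀ (n : ℕ) q, Measurable[Before D (κ * n)] (θ n q)) → ∀ᵐ ω ∂P,
        ∀ (m : ℕ) (p : Fin m → Fin 2 × ℕ), Function.Injective p →
          EquidistributedTorus fun n k => ![η₁, η₂] (p k).1 * number b D ω *
            ![Real.exp 1, Real.pi] (p k).1 ^ (n + (p k).2) + θ n (p k) ω) := by
  have hD' : Pool.Agent.R430.RB.Digits P D := ⟨hD.meas, hD.indep, hD.bdd, hD.atoms⟩
  have h2 : ∀ t : ℝ, 1 < t → Irrational (Real.log t / Real.log b) →
      SeqOf P b D (number b D) fun n => t ^ n := fun t ht hbt =>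
    Pool.Agent.R430.RP.main_lac P b hb D hD' Pool.Agent.R430.RG.ud_mod _
      (Pool.Agent.R430.RG.lac_pow Pool.Agent.R430.RG.pert b t hb ht hbt)
  have he : (1 : ℝ) < Real.exp 1 := Real.one_lt_exp_iff.2 one_pos
  have hp : (1 : ℝ) < Real.pi := by linarith [Real.pi_gt_three]
  have hlb : 0 < Real.log b := Real.log_pos hb
  refine ⟨fun s hs hl => ?_, h2, fun r t κ hinj ht m p η hη θ hθ => ?_,
    fun hba => ⟨?_, ?_, ?_⟩⟩
  · exact Pool.Agent.R430.RP.main_lac P b hb D hD' Pool.Agent.R430.RG.ud_mod s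
      ⟨hs, Pool.Agent.R430.RG.ud_of_equi _ hl⟩
  · exact Pool.Agent.R430.RP.main_joint P b hb D hD' Pool.Agent.R430.RG.ud_mod
      Pool.Agent.R430.RG.pert Pool.Agent.R430.RG.sum_dom r t hinj (fun i => (ht i).1)
      (fun i => (ht i).2.1) κ (fun i => (ht i).2.2) m p η hη θ hθ
  · exact h2 _ he (Pool.Agent.R430.RB.irr_exp b hb hba)
  · exact h2 _ hp (Pool.Agent.R430.RB.irr_pi b hb hba)
  · intro η₁ η₂ κ hη₁ hη₂ hκ θ hθ
    have hκe : κ < Real.log (Real.exp 1) / Real.log b := by rw [Real.log_exp]; exact hκ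
    refine Pool.Agent.R430.RP.main_windows P b hb D hD' Pool.Agent.R430.RG.ud_mod
      Pool.Agent.R430.RG.pert Pool.Agent.R430.RG.sum_dom 2 ![Real.exp 1, Real.pi]
      Pool.Agent.R430.RG.epi_inj ?_ ?_ ?_ κ ?_ ![η₁, η₂] ?_ θ hθ
    · intro i
      fin_cases i
      · exact he
      · exact hp
    · intro i
      fin_cases i
      · exact Pool.Agent.R430.RB.irr_exp b hb hba
      · exact Pool.Agent.R430.RB.irr_pi b hb hba
    · intro i
      fin_cases i
      · exact Pool.Agent.H340R2.LW.transcendental_exp_one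
      · exact Pool.Agent.H340R2.LW.transcendental_pi
    · intro i
      fin_cases i
      · exact hκe
      · refine hκe.trans_le (div_le_div_of_nonneg_right ?_ hlb.le)
        apply Real.log_le_log (Real.exp_pos 1)
        have h1 := Real.exp_one_lt_d9
        have h2 := Real.pi_gt_three
        show Real.exp 1 ≤ Real.pi
        linarith
    · intro i
      fin_cases i
      · exact hη₁
      · exact hη₂

end Pool.Agent.Results.MP_9056e9_nt.RandomDigitsLacunary
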