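import Pool.Agent.Results.MP_9056e9_nt.AlmostAllExponents
import Pool.Agent.R482.ST.Star

/-!
# Rational approximation of `b e ^ n + P(n)` for all `n` near powers, orbits and other sequences

Let `f_n`, `n = 0, 1, 2, …`, be positive functions on `(a, ∞)`, `a ≥ 0`, such that `f_n(t) / t` is nondecreasing, and such
that the sequence `f_n(t)` has exponent of convergence at most `τ` for each `t > a`: for instance `f_n(t) = t ^ (v_n)` for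
exponents `v_n ≥ 1` (`τ = 0`; all powers, the powers `t ^ (3 ^ n)` of Mills, …), the orbits `f_n(t) = g (g (⋯ g (t)))` of any
map `g` with `g(t) > t` and `g(t) / t` nondecreasing (`τ = 0`; for instance of `t² + c`), and `f_n(t) = v_n t`.
Let `P` be a real polynomial of degree at most `D`, `|b| ≥ 1`, `0 < δ ≤ 1`, `θ < 1`. For all `α > a` outside a set of Hausdorff
dimension at most `(1 - δ² / (12800 · 2 ^ D) + τ) / (1 - θ)`, each `c`, each `Q ≥ 1` and all but finitely many `k`, for ALL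
natural numbers `n` with `|n - f_k(α)| ≤ c f_k(α) ^ θ` no rational number with denominator at most `Q` is closer to
`b e ^ n + P(n)` than `(|b| e ^ n) ^ (-δ) Q ^ (-96 · 2 ^ D / δ)`.
-/

set_option autoImplicit false

namespace Pool.Agent.Results.MP_9056e9_nt.StarshapedExponents

open Finset

/-- the functions `f n` are positive on `(a, ∞)`, `a ≥ 0`, and `f n x / x` is nondecreasing there -/
def Starshaped (a : ℝ) (f : ℕ → ℝ → ℝ) : Prop :=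
  0 ≤ a ∧ ∀ n : ℕ, ∀ x y : ℝ, a < x → x ≤ y → 0 < f n x ∧ f n x / x ≤ f n y / y

/-- for each `x > a` the exponent of convergence of the sequence `f n x` is at most `τ` -/
def ExpLe (a : ℝ) (f : ℕ → ℝ → ℝ) (τ : ℝ) : Prop :=
  ∀ x : ℝ, a < x → ∀ t : ℝ, τ < t → Summable (fun n : ℕ => (f n x) ^ (-t))

/-- some rational number with denominator at most `Q` is closer to `b e ^ n + P(n)` than
`(|b| e ^ n) ^ (-δ) Q ^ (-96 · 2 ^ D / δ)` -/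
def Close (b : ℝ) (P : Polynomial ℝ) (D : ℕ) (δ Q : ℝ) (n : ℕ) : Prop :=
  ∃ (q : ℕ) (p : ℤ), 1 ≤ q ∧ (q : ℝ) ≤ Q ∧
    |b * Real.exp n + P.eval (n : ℝ) - p / q| < (|b| * Real.exp n) ^ (-δ) * Q ^ (-(96 * 2 ^ D / δ))

open Classical in
lemma count (D : ℕ) (b : ℝ) (P : Polynomial ℝ) (δ Q : ℝ) (hδ : 0 < δ) (hδ1 : δ ≤ 1) (hb : 1 ≤ |b|) (hQ : 1 ≤ Q)
    (hP : P.natDegree ≤ D) (ε : ℝ) (hε : 0 < ε) : ∃ C : ℝ, ∀ X : ℕ, 1 ≤ X →
    (((Ioc 0 X).filter (fun m => m ∈ {m : ℕ | Close b P D δ Q m})).card : ℝ) ≤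
      C * (X : ℝ) ^ (1 - δ ^ 2 / (12800 * 2 ^ D) + ε) := by
  obtain ⟨A, hA, h⟩ := AlmostAllExponents.result D
  refine ⟨A / δ, fun X hX => ?_⟩
  have hX1 : (1 : ℝ) ≤ X := by exact_mod_cast hX
  have h1 := h δ b Q P X hδ hδ1 hb hQ hP hX
  have hset : (((Ioc 0 X).filter (fun m => m ∈ {m : ℕ | Close b P D δ Q m}) : Finset ℕ) : Set ℕ) =
      {n : ℕ | 1 ≤ n ∧ n ≤ X ∧ ∃ (q : ℕ) (p : ℤ), 1 ≤ q ∧ (q : ℝ) ≤ Q ∧
        |b * Real.exp n + P.eval (n : ℝ) - p / q| <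
          (|b| * Real.exp n) ^ (-δ) * Q ^ (-(96 * 2 ^ D / δ))} := by
    ext n
    rw [mem_coe, mem_filter, mem_Ioc]
    exact ⟨fun h => ⟨h.1.1, h.1.2, h.2⟩, fun h => ⟨⟨h.1, h.2.1⟩, h.2.2⟩⟩
  rw [← Set.ncard_coe_finset, hset]
  refine h1.trans ?_
  apply mul_le_mul_of_nonneg_left _ (by positivity)
  exact Real.rpow_le_rpow_of_exponent_le hX1 (by linarith)

/-- **Theorem.** Let `P` be a real polynomial of degree at most `D`, `|b| ≥ 1`, `0 < δ ≤ 1`, `f` starshaped functions on `(a, ∞)`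
of exponent of convergence at most `τ ≥ 0` and `θ < 1`. There is a set `E` of Hausdorff dimension at most
`(1 - δ² / (12800 · 2 ^ D) + τ) / (1 - θ)` such that for each `α > a` outside `E`, all natural numbers `Q ≥ 1`, each `c` and all but
finitely many `k`, for ALL natural numbers `n ≥ 1` with `|n - f_k(α)| ≤ c f_k(α) ^ θ`, all `q` with `1 ≤ q ≤ Q` and all
integers `p` one has `|b e ^ n + P(n) - p / q| ≥ (|b| e ^ n) ^ (-δ) Q ^ (-96 · 2 ^ D / δ)`. The functions `v_n x`, `v_n > 0`, are starshaped on `(0, ∞)`, of exponent `τ` if `v` has exponent of convergence at most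
`τ`; the functions `x ^ (v_n)`, `v_n ≥ 1`, are starshaped on `(1, ∞)`, of exponent `0` if the sums of `exp (-t v_n)` converge
for `t > 0`; and the iterates of a map `g` with `g(x) > x` for `x > a` and `g(x) / x` nondecreasing are starshaped on
`(a, ∞)`, of exponent `0`. -/
theorem result :
    (∀ (D : ℕ) (b : ℝ) (P : Polynomial ℝ) (δ : ℝ), 0 < δ → δ ≤ 1 → 1 ≤ |b| → P.natDegree ≤ D →
      ∀ (a : ℝ) (f : ℕ → ℝ → ℝ) (τ θ : ℝ), Starshaped a f → 0 ≤ τ → ExpLe a f τ → θ < 1 →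
      ∃ E : Set ℝ, dimH E ≤ ENNReal.ofReal ((1 - δ ^ 2 / (12800 * 2 ^ D) + τ) / (1 - θ)) ∧
        ∀ α : ℝ, a < α → α ∉ E → ∀ (Q : ℕ) (c : ℝ), 1 ≤ Q → ∃ k₀ : ℕ, ∀ k : ℕ, k₀ ≤ k → ∀ n : ℕ,
          |(n : ℝ) - f k α| ≤ c * (f k α) ^ θ → ∀ (q : ℕ) (p : ℤ), 1 ≤ q → q ≤ Q →
            (|b| * Real.exp n) ^ (-δ) * (Q : ℝ) ^ (-(96 * 2 ^ D / δ)) ≤ |b * Real.exp n + P.eval (n : ℝ) - p / q|) ∧
    (∀ (v : ℕ → ℝ) (τ : ℝ), (∀ n, 0 < v n) → (∀ t : ℝ, τ < t → Summable (fun n : ℕ => (v n) ^ (-t))) →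
      Starshaped 0 (fun n x => v n * x) ∧ ExpLe 0 (fun n x => v n * x) τ) ∧
    (∀ v : ℕ → ℝ, (∀ n, 1 ≤ v n) → (∀ t : ℝ, 0 < t → Summable fun n : ℕ => Real.exp (-(t * v n))) →
      Starshaped 1 (fun n x => x ^ (v n)) ∧ ExpLe 1 (fun n x => x ^ (v n)) 0) ∧
    (∀ (a : ℝ) (g : ℝ → ℝ), 0 ≤ a → (∀ x y : ℝ, a < x → x ≤ y → g x / x ≤ g y / y) → (∀ x : ℝ, a < x → x < g x) →
      Starshaped a (fun n x => g^[n] x) ∧ ExpLe a (fun n x => g^[n] x) 0) := by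
  refine ⟨fun D b P δ hδ hδ1 hb hP a f τ θ hf hτ hE hθ1 => ?_, Pool.Agent.R482.ST.ex_mul,
    Pool.Agent.R482.ST.ex_pow, Pool.Agent.R482.ST.ex_orbit⟩
  have hpos : 0 ≤ 1 - δ ^ 2 / (12800 * 2 ^ D) := by
    have h1 : δ ^ 2 ≤ 1 := pow_le_one₀ hδ.le hδ1
    have h2 : (1 : ℝ) ≤ 12800 * 2 ^ D := by
      have : (1 : ℝ) ≤ 2 ^ D := one_le_pow₀ (by norm_num)
      linarith
    have h3 : δ ^ 2 / (12800 * 2 ^ D) ≤ 1 := by
      rw [div_le_one (by positivity)]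
      linarith
    linarith
  have hall : ∀ Q : ℕ, ∃ E : Set ℝ, dimH E ≤ ENNReal.ofReal ((1 - δ ^ 2 / (12800 * 2 ^ D) + τ) / (1 - θ)) ∧
      ∀ α : ℝ, a < α → α ∉ E → ∀ c : ℝ, 1 ≤ Q → ∃ k₀ : ℕ, ∀ k : ℕ, k₀ ≤ k → ∀ n : ℕ,
          |(n : ℝ) - f k α| ≤ c * (f k α) ^ θ → n ∉ {m : ℕ | Close b P D δ Q m} := by
    intro Q
    rcases Nat.lt_or_ge Q 1 with h | h
    · exact ⟨∅, by simp, fun α hα _ c hQ => absurd hQ (not_le.2 h)⟩
    · obtain ⟨E, h2, h3⟩ := Pool.Agent.R482.ST.win_nat {m : ℕ | Close b P D δ Q m} hf hτ hE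
        (s := 1 - δ ^ 2 / (12800 * 2 ^ D)) hpos hθ1
        (count D b P δ Q hδ hδ1 hb (by exact_mod_cast h) hP)
      refine ⟨E, h2, fun α hα hαE c _ => ?_⟩
      obtain ⟨k₀, hk⟩ := h3 α hα hαE c
      exact ⟨k₀, fun k hk1 n hn => (hk k hk1 n hn).2⟩
  choose G hG1 hG2 using hall
  refine ⟨⋃ Q, G Q, ?_, fun α hα hαE Q c hQ => ?_⟩
  · rw [dimH_iUnion]
    exact iSup_le hG1
  · obtain ⟨k₀, hk⟩ := hG2 Q α hα (fun h => hαE (Set.mem_iUnion.2 ⟨Q, h⟩)) c hQ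
    refine ⟨k₀, fun k hk1 n hn q p hq hqQ => ?_⟩
    by_contra hcon
    exact hk k hk1 n hn ⟨q, p, hq, by exact_mod_cast hqQ, not_le.1 hcon⟩

end Pool.Agent.Results.MP_9056e9_nt.StarshapedExponents
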