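import Pool.Agent.R485.MF.Frac
import Pool.Agent.R485.MF.Comb
import Pool.Agent.R485.MF.Low
import Pool.Agent.R485.MF.Up
import Pool.Agent.R485.MF.Dim
import Pool.Agent.R485.MF.Ent
import Pool.Agent.R485.MF.Prob
import Pool.Agent.R485.MF.Gen

/-!
# The digits of the fractional parts of `x e ^ n` and `x π ^ n`

Let `θ > 1` be real (for instance `e` or `π`), `b ≥ 2`, and let `k n` be natural numbers with
`k n / n → ∞`. We consider the frequencies of the `b` digits among the first `k n` digits after the
point of `x θ ^ n`, that is the empirical measures of the orbit of the fractional part of `x θ ^ n`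
under multiplication by `b`, and the limit points `p` of the vectors of frequencies as `n → ∞`.

1. For every closed set `K` of vectors the set of `x` in a given interval of `(0, ∞)` for which some
limit point is in `K` has Hausdorff dimension exactly the supremum of the entropies (in base `b`) of
the probability vectors in `K`. For every `ε > 0` the set of `x > 0` such that some frequency
differs from `1 / b` by at least `ε` for infinitely many `n` has dimension less than `1`, and for
almost every `x` all frequencies tend to `1 / b`.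

2. The lower bound holds for countably many numbers `θ`, bases, sequences and vectors at once: the
numbers `x` which have all the given limit points form a set of dimension at least `t`, if `t ≤ 1`
is a lower bound of the entropies.

3. For generic `x > 0`, for countably many given `θ` and sequences, and for all bases, all
probability vectors are limit points.

Proof: the digits up to the place `k n` after the point are those of the integer part of
`x θ ^ n b ^ (k n)`. Upper bound: counting of integers with given digit frequencies. Lower bound: the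
integers with given digit frequencies contain sets which are well distributed at all scales (words of
a typical set), and a game for the large intersection property of limsup sets (starting files).
-/

set_option autoImplicit false

open Filter Topology MeasureTheory Set

namespace Pool.Agent.Results.MP_9056e9_nt.VectorsOfDigitFrequencies

/-- the `i`-th digit after the point of `y ≥ 0` in base `b` -/
noncomputable def digit (b : ℕ) (y : ℝ) (i : ℕ) : ℕ := ⌊y * (b : ℝ) ^ i⌋₊ % b

/-- the frequency of the digit `d` among the first `k` digits after the point of `y` in base `b` -/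
noncomputable def freq (b k : ℕ) (y : ℝ) (d : ℕ) : ℝ :=
  (((Finset.Icc 1 k).filter fun i => digit b y i = d).card : ℝ) / k

/-- `p` is a limit point, as `n → ∞`, of the vectors of the frequencies of the digits among the
first `k n` digits after the point of `x θ ^ n` -/
def LimitPoint (b : ℕ) (k : ℕ → ℕ) (θ x : ℝ) (p : Fin b → ℝ) : Prop :=
  ∀ ε : ℝ, 0 < ε → ∃ᶠ n in atTop, ∀ d : Fin b, |freq b (k n) (x * θ ^ n) d - p d| < ε

/-- `p` is a probability vector -/
def IsProbability {b : ℕ} (p : Fin b → ℝ) : Prop := (∀ d, 0 ≤ p d) ∧ ∑ d, p d = 1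

/-- the entropy in base `b`, `- ∑ p_d log p_d / log b` -/
noncomputable def entropy {b : ℕ} (p : Fin b → ℝ) : ℝ :=
  (∑ d, Real.negMulLog (p d)) / Real.log b

/-- `k n / n → ∞` -/
def Superlinear (k : ℕ → ℕ) : Prop := Tendsto (fun n : ℕ => (k n : ℝ) / n) atTop atTop

open Pool.Agent.R485.MF

theorem hlow : S_low := t_low
theorem hcomb : S_comb := t_comb t_low

/-- **The digits of the fractional parts of `x θ ^ n`.** -/
theorem result :
    (∀ (θ : ℝ) (b : ℕ) (k : ℕ → ℕ), 1 < θ → 2 ≤ b → Superlinear k →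
      (∀ K : Set (Fin b → ℝ), IsClosed K → ∀ u w : ℝ, 0 ≤ u → u < w →
        dimH {x : ℝ | x ∈ Ioo u w ∧ ∃ p ∈ K, LimitPoint b k θ x p} =
          ⨆ p ∈ {p : Fin b → ℝ | p ∈ K ∧ IsProbability p}, ENNReal.ofReal (entropy p)) ∧
      (∀ ε : ℝ, 0 < ε → ∃ t : ℝ, t < 1 ∧ dimH {x : ℝ | 0 < x ∧ ¬ ∀ᶠ n in atTop, ∀ d : Fin b,
        |freq b (k n) (x * θ ^ n) d - 1 / b| < ε} ≤ ENNReal.ofReal t) ∧
      (∀ᵐ x ∂(volume : Measure ℝ), 0 < x → ∀ d : Fin b,
        Tendsto (fun n => freq b (k n) (x * θ ^ n) d) atTop (𝓝 (1 / b)))) ∧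
    (∀ (θ : ℕ → ℝ) (b : ℕ → ℕ) (k : ℕ → ℕ → ℕ) (p : ∀ i, Fin (b i) → ℝ), (∀ i, 1 < θ i) →
      (∀ i, 2 ≤ b i) → (∀ i, Superlinear (k i)) → (∀ i, IsProbability (p i)) →
      ∀ u w t : ℝ, 0 ≤ u → u < w → t ≤ 1 → (∀ i, t ≤ entropy (p i)) →
        ENNReal.ofReal t ≤
          dimH {x : ℝ | x ∈ Ioo u w ∧ ∀ i, LimitPoint (b i) (k i) (θ i) x (p i)}) ∧
    (∀ (θ : ℕ → ℝ) (k : ℕ → ℕ → ℕ), (∀ i, 1 < θ i) → (∀ i, Superlinear (k i)) →
      ∀ᶠ x in residual ℝ, 0 < x → ∀ i b : ℕ, 2 ≤ b → ∀ p : Fin b → ℝ, IsProbability p →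
        LimitPoint b (k i) (θ i) x p) := by
  refine ⟨fun θ b k hθ hb hk => ⟨fun K hK u w hu huw => ?_, fun ε hε => ?_, ?_⟩, ?_, ?_⟩
  · have h := formula hcomb t_up t_dim t_prob t_ent hb (seq_pos hb hθ k) (seq_summable hb hθ k)
      K hK u w hu huw
    have e : {x : ℝ | x ∈ Ioo u w ∧ ∃ p ∈ K, LimitPoint b k θ x p} =
        {x : ℝ | x ∈ Ioo u w ∧ ∃ p ∈ K, LimitPt b (fun n => θ ^ n * (b : ℝ) ^ k n) x p} := by
      ext x
      refine and_congr_right fun hx => exists_congr fun p => and_congr_right fun _ => ?_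
      exact limit_iff hb hθ hk (hu.trans_lt hx.1) p
    rw [e]
    exact h
  · obtain ⟨t, ht1, ht⟩ := exceptional t_up t_dim t_prob t_ent hb (seq_pos hb hθ k)
      (seq_summable hb hθ k) (ε / 2) (by positivity)
    refine ⟨t, ht1, (dimH_mono ?_).trans ht⟩
    rintro x ⟨hx, h⟩
    refine ⟨hx, fun h1 => h ?_⟩
    filter_upwards [h1, ev_close hb hθ hk hx (show 0 < ε / 2 by positivity)] with n h2 h3 d
    have h4 := h2 d
    have h5 := h3 d
    rw [abs_sub_comm] at h5
    have h6 := abs_sub_le (ffr b (k n) (x * θ ^ n) d)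
      (fr b ⌊x * (θ ^ n * (b : ℝ) ^ k n)⌋₊ d) (1 / b)
    show |ffr b (k n) (x * θ ^ n) d - 1 / b| < ε
    linarith
  · filter_upwards [ae t_up t_dim t_prob t_ent hb (seq_pos hb hθ k) (seq_summable hb hθ k)]
      with x h hx d
    have h1 := h hx d
    rw [Metric.tendsto_atTop'] at h1 ⊢
    intro ε hε
    obtain ⟨N, hN⟩ := h1 (ε / 2) (by positivity)
    obtain ⟨M, hM⟩ := eventually_atTop.1 (ev_close hb hθ hk hx (show 0 < ε / 2 by positivity))
    refine ⟨max N M, fun n hn => ?_⟩
    have h2 := hN n (lt_of_le_of_lt (le_max_left _ _) hn)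
    have h3 := hM n ((le_max_right _ _).trans hn.le) d
    rw [Real.dist_eq] at h2 ⊢
    rw [abs_sub_comm] at h3
    have h6 := abs_sub_le (ffr b (k n) (x * θ ^ n) d)
      (fr b ⌊x * (θ ^ n * (b : ℝ) ^ k n)⌋₊ d) (1 / b)
    show |ffr b (k n) (x * θ ^ n) d - 1 / b| < ε
    linarith
  · intro θ b k p hθ hb hk hp u w t hu huw ht1 ht
    rcases le_or_gt t 0 with h0 | h0
    · rw [ENNReal.ofReal_of_nonpos h0]
      exact zero_le
    · have h := lower hcomb b hb p hp (fun i n => θ i ^ n * (b i : ℝ) ^ k i n)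
        (fun i => seq_pos (hb i) (hθ i) (k i))
        (fun i => tends (seq_pos (hb i) (hθ i) (k i)) (seq_summable (hb i) (hθ i) (k i)))
        u w hu huw t h0 ht1 ht
      refine h.trans (dimH_mono ?_)
      rintro x ⟨hx, h2⟩
      exact ⟨hx, fun i => (limit_iff (hb i) (hθ i) (hk i) (hu.trans_lt hx.1) (p i)).2 (h2 i)⟩
  · intro θ k hθ hk
    have h := t_gen hcomb (fun j n => θ (Nat.unpair j).1 ^ n *
        (((Nat.unpair j).2 + 2 : ℕ) : ℝ) ^ k (Nat.unpair j).1 n)
      (fun j => seq_pos (by omega) (hθ _) (k _))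
      (fun j => tends (seq_pos (by omega) (hθ _) (k _)) (seq_summable (by omega) (hθ _) (k _)))
    filter_upwards [h] with x hx hx0 i b hb p hp
    obtain ⟨c, rfl⟩ : ∃ c, b = c + 2 := ⟨b - 2, by omega⟩
    have h2 := hx hx0 (Nat.pair i c) (c + 2) hb p hp
    simp only [Nat.unpair_pair] at h2
    exact (limit_iff hb (hθ i) (hk i) hx0 p).2 h2

end Pool.Agent.Results.MP_9056e9_nt.VectorsOfDigitFrequencies
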